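import Mathlib

/-!
Two bridges for the full statement: a disconnected 2-regular graph on six vertices is two
disjoint triangles, and separate vertex and edge labels give one bijection onto an interval.
-/

set_option autoImplicit false

namespace Pool.Agent.MP_29e935_co.FullAux

open Finset

/-- In a 2-regular graph every vertex has two distinct neighbours, and no others. -/
theorem two_nbrs {V : Type} [Fintype V] [DecidableEq V] (G : SimpleGraph V) [DecidableRel G.Adj]
    (hG : G.IsRegularOfDegree 2) (u : V) :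
    ∃ a b, a ≠ b ∧ ∀ w, G.Adj u w ↔ (w = a ∨ w = b) := by
  have h := hG.degree_eq u
  rw [← SimpleGraph.card_neighborFinset_eq_degree, Finset.card_eq_two] at h
  obtain ⟨a, b, hab, he⟩ := h
  refine ⟨a, b, hab, fun w => ?_⟩
  rw [← SimpleGraph.mem_neighborFinset, he]
  simp

theorem iso_two_triangles {V : Type} [Fintype V] [DecidableEq V] (G : SimpleGraph V)
    [DecidableRel G.Adj] (hG : G.IsRegularOfDegree 2) (h6 : Fintype.card V = 6)
    (hc : ¬ G.Connected) :
    Nonempty (G ≃g SimpleGraph.sum (⊤ : SimpleGraph (Fin 3)) (⊤ : SimpleGraph (Fin 3))) := by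
  have hne : Nonempty V := Fintype.card_pos_iff.1 (by omega)
  have hp : ¬ G.Preconnected := fun h => hc ⟨h⟩
  simp only [SimpleGraph.Preconnected, not_forall] at hp
  obtain ⟨u, v, huv⟩ := hp
  obtain ⟨a, b, hab, hu⟩ := two_nbrs G hG u
  obtain ⟨c, d, hcd, hv⟩ := two_nbrs G hG v
  have hua : G.Adj u a := (hu a).2 (Or.inl rfl)
  have hub : G.Adj u b := (hu b).2 (Or.inr rfl)
  have hvc : G.Adj v c := (hv c).2 (Or.inl rfl)
  have hvd : G.Adj v d := (hv d).2 (Or.inr rfl)
  let φ : Fin 3 ⊕ Fin 3 → V := Sum.elim ![u, a, b] ![v, c, d]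
  have hl : ∀ i, G.Reachable u (φ (Sum.inl i)) := by
    intro i
    fin_cases i
    · exact SimpleGraph.Reachable.refl u
    · exact hua.reachable
    · exact hub.reachable
  have hr : ∀ i, G.Reachable v (φ (Sum.inr i)) := by
    intro i
    fin_cases i
    · exact SimpleGraph.Reachable.refl v
    · exact hvc.reachable
    · exact hvd.reachable
  have hlr : ∀ i j, ¬ G.Reachable (φ (Sum.inl i)) (φ (Sum.inr j)) := fun i j h =>
    huv (((hl i).trans h).trans (hr j).symm)
  have hli : Function.Injective (fun i => φ (Sum.inl i)) := by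
    intro i j h
    have h1 := hua.ne
    have h2 := hub.ne
    fin_cases i <;> fin_cases j <;> simp_all [φ]
  have hri : Function.Injective (fun i => φ (Sum.inr i)) := by
    intro i j h
    have h1 := hvc.ne
    have h2 := hvd.ne
    fin_cases i <;> fin_cases j <;> simp_all [φ]
  have hinj : Function.Injective φ := by
    rintro (i | i) (j | j) h
    · exact congrArg _ (hli h)
    · exact absurd (h ▸ SimpleGraph.Reachable.refl _) (hlr i j)
    · exact absurd (h ▸ SimpleGraph.Reachable.refl _) (hlr j i)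
    · exact congrArg _ (hri h)
  have hbij : Function.Bijective φ :=
    (Fintype.bijective_iff_injective_and_card φ).2 ⟨hinj, by simp [h6]⟩
  -- inside a triple every two distinct vertices are adjacent
  have key : ∀ (ψ : Fin 3 → V), (∀ i w, G.Adj (ψ i) w → ∃ j, w = ψ j) →
      ∀ i j, i ≠ j → G.Adj (ψ i) (ψ j) := by
    intro ψ hψ i j hij
    obtain ⟨x, y, hxy, hx⟩ := two_nbrs G hG (ψ i)
    obtain ⟨p, rfl⟩ := hψ i x ((hx x).2 (Or.inl rfl))
    obtain ⟨q, rfl⟩ := hψ i y ((hx y).2 (Or.inr rfl))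
    have hp : p ≠ i := fun h => ((hx _).2 (Or.inl rfl)).ne (by rw [h])
    have hq : q ≠ i := fun h => ((hx _).2 (Or.inr rfl)).ne (by rw [h])
    have hpq : p ≠ q := fun h => hxy (by rw [h])
    have : j = p ∨ j = q :=
      (by decide : ∀ i j p q : Fin 3, i ≠ j → p ≠ i → q ≠ i → p ≠ q → j = p ∨ j = q)
        i j p q hij hp hq hpq
    rcases this with rfl | rfl
    · exact (hx _).2 (Or.inl rfl)
    · exact (hx _).2 (Or.inr rfl)
  have kl := key (fun i => φ (Sum.inl i)) (by
    intro i w hw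
    obtain ⟨j | j, rfl⟩ := hbij.2 w
    · exact ⟨j, rfl⟩
    · exact absurd hw.reachable (hlr i j))
  have kr := key (fun i => φ (Sum.inr i)) (by
    intro i w hw
    obtain ⟨j | j, rfl⟩ := hbij.2 w
    · exact absurd hw.reachable.symm (hlr j i)
    · exact ⟨j, rfl⟩)
  refine ⟨SimpleGraph.Iso.symm ⟨Equiv.ofBijective φ hbij, ?_⟩⟩
  rintro (i | i) (j | j)
  · simp only [Equiv.ofBijective_apply, SimpleGraph.sum_adj_inl, SimpleGraph.top_adj]
    exact ⟨fun h e => h.ne (by rw [e]), kl i j⟩
  · simp only [Equiv.ofBijective_apply]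
    exact ⟨fun h => absurd h.reachable (hlr i j), fun h => by simp at h⟩
  · simp only [Equiv.ofBijective_apply]
    exact ⟨fun h => absurd h.reachable.symm (hlr j i), fun h => by simp at h⟩
  · simp only [Equiv.ofBijective_apply, SimpleGraph.sum_adj_inr, SimpleGraph.top_adj]
    exact ⟨fun h e => h.ne (by rw [e]), kr i j⟩

theorem bij_of_labels {V : Type} [Fintype V] [DecidableEq V] (G : SimpleGraph V)
    [DecidableRel G.Adj] (h : V → ℕ) (g : Sym2 V → ℕ) (k : ℕ)
    (h1 : Function.Injective h) (h2 : Set.InjOn g G.edgeSet)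
    (h3 : ∀ v, ∀ e ∈ G.edgeSet, h v ≠ g e)
    (h4 : ∀ v, 1 ≤ h v ∧ h v ≤ Fintype.card V + Fintype.card G.edgeSet)
    (h5 : ∀ e ∈ G.edgeSet, 1 ≤ g e ∧ g e ≤ Fintype.card V + Fintype.card G.edgeSet)
    (h6 : ∀ v, h v + ∑ w ∈ G.neighborFinset v, g s(v, w) = k) :
    ∃ (f : V ⊕ G.edgeSet → ℕ) (k : ℕ),
      Set.BijOn f Set.univ (Set.Icc 1 (Fintype.card V + Fintype.card G.edgeSet)) ∧
      ∀ x : V, f (Sum.inl x) + ∑ y : G.neighborSet x, f (Sum.inr ⟨s(x, y.1), y.2⟩) = k := by
  let f : V ⊕ G.edgeSet → ℕ := Sum.elim h (fun e => g e.1)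
  have hinj : Function.Injective f := by
    rintro (x | x) (y | y) e
    · exact congrArg _ (h1 e)
    · exact absurd e (h3 x y.1 y.2)
    · exact absurd e.symm (h3 y x.1 x.2)
    · exact congrArg _ (Subtype.ext (h2 x.2 y.2 e))
  have hmap : ∀ x, f x ∈ Finset.Icc 1 (Fintype.card V + Fintype.card G.edgeSet) := by
    rintro (x | x)
    · exact Finset.mem_Icc.2 (h4 x)
    · exact Finset.mem_Icc.2 (h5 x.1 x.2)
  have himg : Finset.univ.image f = Finset.Icc 1 (Fintype.card V + Fintype.card G.edgeSet) := by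
    apply Finset.eq_of_subset_of_card_le
    · intro n hn
      obtain ⟨x, -, rfl⟩ := Finset.mem_image.1 hn
      exact hmap x
    · rw [Finset.card_image_of_injective _ hinj]
      simp
  refine ⟨f, k, ⟨fun x _ => ?_, hinj.injOn, fun n hn => ?_⟩, fun x => ?_⟩
  · exact Finset.mem_Icc.1 (hmap x)
  · have : n ∈ Finset.univ.image f := by
      rw [himg]
      exact Finset.mem_Icc.2 hn
    obtain ⟨x, -, rfl⟩ := Finset.mem_image.1 this
    exact ⟨x, trivial, rfl⟩
  · rw [← h6 x]
    congr 1
    exact (Finset.sum_subtype (G.neighborFinset x) (p := fun y => y ∈ G.neighborSet x)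
      (fun y => by simp) (fun w => g s(x, w))).symm

end Pool.Agent.MP_29e935_co.FullAux
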