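import Mathlib

set_option autoImplicit false

/-! A minimal set of vertices of large in-degree. -/

namespace Pool.Agent.MP_29e935_co

open Finset

variable {W : Type*} [DecidableEq W]

/-- properties of the count of edges between two vertex sets -/
structure Bil (V : Finset W) (d : ℕ) (D : Finset W → Finset W → ℕ) : Prop where
  sym : ∀ A B, D A B = D B A
  add : ∀ A A' B, Disjoint A A' → D (A ∪ A') B = D A B + D A' B
  deg : ∀ A ⊆ V, D A V ≤ d * A.card
  one : ∀ x B, D {x} B ≤ B.card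
  loop : ∀ x, D {x} {x} = 0

theorem Bil.add' {V : Finset W} {d : ℕ} {D : Finset W → Finset W → ℕ} (h : Bil V d D)
    (A B B' : Finset W) (hd : Disjoint B B') : D A (B ∪ B') = D A B + D A B' := by
  rw [h.sym, h.add _ _ _ hd, h.sym B, h.sym B']

theorem Bil.mono {V : Finset W} {d : ℕ} {D : Finset W → Finset W → ℕ} (h : Bil V d D)
    (A : Finset W) {B B' : Finset W} (hs : B ⊆ B') : D A B ≤ D A B' := by
  have := h.add' A B (B' \ B) Finset.disjoint_sdiff
  rw [Finset.union_sdiff_of_subset hs] at this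
  omega

theorem Bil.le {V : Finset W} {d : ℕ} {D : Finset W → Finset W → ℕ} (h : Bil V d D)
    {A B : Finset W} (hA : A ⊆ V) (hB : B ⊆ V) : D A B ≤ d * A.card :=
  (h.mono A hB).trans (h.deg A hA)

theorem Bil.empty {V : Finset W} {d : ℕ} {D : Finset W → Finset W → ℕ} (h : Bil V d D)
    (B : Finset W) : D ∅ B = 0 := by
  have := h.add ∅ ∅ B (by simp)
  simp only [union_idempotent] at this
  omega

theorem Bil.sum {V : Finset W} {d : ℕ} {D : Finset W → Finset W → ℕ} (h : Bil V d D)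
    (A B : Finset W) : D A B = ∑ x ∈ A, D {x} B := by
  induction A using Finset.induction_on with
  | empty => simp [h.empty]
  | insert x A hx ih =>
    rw [Finset.sum_insert hx, ← ih, Finset.insert_eq, h.add]
    simpa using hx

theorem Bil.sq {V : Finset W} {d : ℕ} {D : Finset W → Finset W → ℕ} (h : Bil V d D)
    (A B : Finset W) (hd : Disjoint A B) : D (A ∪ B) (A ∪ B) = D A A + 2 * D A B + D B B := by
  rw [h.add _ _ _ hd, h.add' _ _ _ hd, h.add' _ _ _ hd, h.sym B A]
  ring

/-- upper condition -/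
def Upper (V : Finset W) (m : ℕ) (D : Finset W → Finset W → ℕ) (S : Finset W) : Prop :=
  ∀ X ⊆ V, D X X ≤ 2 * ((m - 1) * X.card + 4 * (X ∩ S).card)

/-- strict lower condition -/
def Lower (V : Finset W) (m δ : ℕ) (D : Finset W → Finset W → ℕ) (S : Finset W) : Prop :=
  ∀ Y ⊆ V, D Y Y + 2 * (4 + δ) * (Y ∩ S).card + (if Y ⊆ S then 0 else 1) ≤ 2 * (m + 1) * Y.card

theorem greedy_step {V : Finset W} {m δ : ℕ} {D : Finset W → Finset W → ℕ}
    (h : Bil V (2 * m - 1) D) (hm : (δ = 0 ∧ m = 3) ∨ (δ = 1 ∧ 5 ≤ m)) {S : Finset W}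
    (hL : Lower V m δ D S) (hU : ¬ Upper V m D S) :
    ∃ x ∈ V, x ∉ S ∧ Lower V m δ D (insert x S) := by
  classical
  obtain ⟨n, rfl⟩ : ∃ n, m = n + 3 := ⟨m - 3, by omega⟩
  simp only [show 2 * (n + 3) - 1 = 2 * n + 5 by omega] at h
  unfold Upper at hU
  unfold Lower at hL ⊢
  simp only [show n + 3 - 1 = n + 2 by omega, show n + 3 + 1 = n + 4 by omega] at hU hL ⊢
  push Not at hU
  obtain ⟨X, hX, hmin⟩ := ((Finset.powerset V).filter
    (fun X => 2 * ((n + 2) * X.card + 4 * (X ∩ S).card) < D X X)).exists_min_image Finset.card (by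
      obtain ⟨X, h1, h2⟩ := hU
      exact ⟨X, by simp [h1, h2]⟩)
  simp only [mem_filter, mem_powerset] at hX hmin
  obtain ⟨hXV, hX⟩ := hX
  have hsplit : X \ S ∪ X ∩ S = X := Finset.sdiff_union_inter X S
  have hdisj : Disjoint (X \ S) (X ∩ S) := Finset.disjoint_sdiff_inter X S
  have hcard : (X \ S).card + (X ∩ S).card = X.card := Finset.card_sdiff_add_card_inter X S
  have hx : ∃ x ∈ X \ S, n + 5 + δ + δ * D {x} (X ∩ S) ≤ D {x} X := by
    by_contra hcon
    push Not at hcon
    have e1 : D (X \ S) X ≤ (n + 4 + δ) * (X \ S).card + δ * D (X \ S) (X ∩ S) := by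
      rw [h.sum (X \ S) X, h.sum (X \ S) (X ∩ S), Finset.mul_sum, Finset.card_eq_sum_ones,
        Finset.mul_sum, ← Finset.sum_add_distrib]
      apply Finset.sum_le_sum
      intro x hx
      have := hcon x hx
      omega
    have e2 : D (X \ S) (X ∩ S) ≤ (2 * n + 5) * (X ∩ S).card := by
      rw [h.sym]
      exact h.le (inter_subset_left.trans hXV) (sdiff_subset.trans hXV)
    have e3 : D X X = D (X \ S) X + D (X ∩ S) X := by
      rw [← h.add _ _ _ hdisj, hsplit]
    have e4 : D (X ∩ S) X ≤ (2 * n + 5) * (X ∩ S).card :=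
      h.le (inter_subset_left.trans hXV) hXV
    have e5 : D X X ≤ (2 * n + 5) * X.card := h.le hXV hXV
    rw [← hcard] at hX e5
    generalize (X \ S).card = k at *
    generalize (X ∩ S).card = σ at *
    rcases hm with ⟨rfl, hn⟩ | ⟨rfl, hn⟩
    · obtain rfl : n = 0 := by omega
      omega
    · obtain ⟨t, rfl⟩ : ∃ t, n = t + 2 := ⟨n - 2, by omega⟩
      have k1 : 7 * σ < k := by nlinarith
      nlinarith
  obtain ⟨x, hx1, hx2⟩ := hx
  rw [Finset.mem_sdiff] at hx1
  refine ⟨x, hXV hx1.1, hx1.2, fun Y hYV => ?_⟩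
  by_cases hxY : x ∈ Y
  swap
  · have e1 : Y ∩ insert x S = Y ∩ S := by
      ext y; simp only [mem_inter, mem_insert]
      constructor
      · rintro ⟨h1, rfl | h2⟩
        · exact absurd h1 hxY
        · exact ⟨h1, h2⟩
      · tauto
    have e2 : Y ⊆ insert x S ↔ Y ⊆ S := Finset.subset_insert_iff_of_notMem hxY
    rw [e1]
    simp only [e2]
    exact hL Y hYV
  set W' := (Y ∩ X).erase x with hW'
  set Y₀ := Y \ X with hY₀
  set X₀ := X \ Y with hX₀
  have hxW : x ∉ W' := by simp [hW']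
  have eW : {x} ∪ W' = Y ∩ X := by
    rw [← Finset.insert_eq, hW', Finset.insert_erase (by simp [hxY, hx1.1])]
  have eY : Y₀ ∪ Y ∩ X = Y := Finset.sdiff_union_inter Y X
  have eX : X₀ ∪ Y ∩ X = X := by rw [Finset.inter_comm]; exact Finset.sdiff_union_inter X Y
  have dY : Disjoint Y₀ (Y ∩ X) := Finset.disjoint_sdiff_inter Y X
  have dX : Disjoint X₀ (Y ∩ X) := by rw [Finset.inter_comm]; exact Finset.disjoint_sdiff_inter X Y
  have dx : Disjoint {x} W' := by simpa using hxW
  have dx0 : Disjoint X₀ {x} := by simp [hX₀, hxY]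
  have dXY : Disjoint X₀ Y := Finset.sdiff_disjoint
  have f1 : D Y Y = D Y₀ Y₀ + 2 * D Y₀ (Y ∩ X) + D (Y ∩ X) (Y ∩ X) := by
    rw [← h.sq _ _ dY, eY]
  have f2 : D X X = D X₀ X₀ + 2 * D X₀ (Y ∩ X) + D (Y ∩ X) (Y ∩ X) := by
    rw [← h.sq _ _ dX, eX]
  have cW : (Y ∩ X).card = W'.card + 1 := by
    rw [← eW, Finset.card_union_of_disjoint dx, Finset.card_singleton, add_comm]
  have f3 : D X₀ (Y ∩ X) + D Y₀ (Y ∩ X) + D (Y ∩ X) (Y ∩ X) ≤ (2 * n + 5) * (W'.card + 1) := by
    rw [add_assoc, ← h.add _ _ _ dY, eY, ← h.add _ _ _ dXY, h.sym, ← cW]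
    apply h.le (inter_subset_left.trans hYV)
    exact Finset.union_subset (sdiff_subset.trans hXV) hYV
  have f4 : D (X₀ ∪ {x}) (X₀ ∪ {x}) = D X₀ X₀ + 2 * D {x} X₀ := by
    rw [h.sq _ _ dx0, h.loop, h.sym X₀ {x}]; rfl
  have f5 : D {x} X = D {x} X₀ + D {x} W' := by
    conv_lhs => rw [← eX]
    rw [h.add' _ _ _ dX, ← eW, h.add' _ _ _ dx, h.loop]; omega
  have cW' : (W' \ S).card + (W' ∩ S).card = W'.card := Finset.card_sdiff_add_card_inter W' S
  have f6 : D {x} W' + δ * (W' ∩ S).card ≤ W'.card + δ * D {x} (X ∩ S) := by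
    have g1 : D {x} W' = D {x} (W' \ S) + D {x} (W' ∩ S) := by
      rw [← h.add' _ _ _ (Finset.disjoint_sdiff_inter W' S), Finset.sdiff_union_inter]
    have g2 := h.one x (W' \ S)
    have g3 := h.one x W'
    have g4 : D {x} (W' ∩ S) ≤ D {x} (X ∩ S) := h.mono _ (Finset.inter_subset_inter_right
      ((Finset.erase_subset _ _).trans inter_subset_right))
    rcases hm with ⟨rfl, _⟩ | ⟨rfl, _⟩ <;> omega
  have cX : X.card = (X₀ ∪ {x}).card + W'.card := by
    rw [Finset.card_union_of_disjoint dx0, ← eX, Finset.card_union_of_disjoint dX, cW,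
      Finset.card_singleton]; omega
  have cXS : (X ∩ S).card = ((X₀ ∪ {x}) ∩ S).card + (W' ∩ S).card := by
    rw [← Finset.card_union_of_disjoint]
    · congr 1
      rw [← Finset.union_inter_distrib_right, Finset.union_assoc, eW, eX]
    · apply Finset.disjoint_of_subset_left inter_subset_left
      apply Finset.disjoint_of_subset_right inter_subset_left
      rw [Finset.disjoint_union_left]
      exact ⟨Finset.disjoint_of_subset_right (Finset.erase_subset _ _) dX, dx⟩
  have f7 : D (X₀ ∪ {x}) (X₀ ∪ {x}) + 2 * ((n + 2) * W'.card + 4 * (W' ∩ S).card) +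
      (if W' = ∅ then 0 else 1) ≤ D X X := by
    split_ifs with hW
    · have : X₀ ∪ {x} = X := by rw [← eX, ← eW, hW]; simp
      rw [this, hW]; simp
    · have hpos := Finset.card_pos.2 (Finset.nonempty_iff_ne_empty.2 hW)
      have hsub : X₀ ∪ {x} ⊆ V :=
        Finset.union_subset (sdiff_subset.trans hXV) (by simpa using hXV hx1.1)
      have : ¬ 2 * ((n + 2) * (X₀ ∪ {x}).card + 4 * ((X₀ ∪ {x}) ∩ S).card) <
          D (X₀ ∪ {x}) (X₀ ∪ {x}) := fun hh => by
        have := hmin _ ⟨hsub, hh⟩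
        omega
      rw [cX, cXS] at hX
      nlinarith
  have f8 := hL Y₀ (sdiff_subset.trans hYV)
  have cY : Y.card = Y₀.card + W'.card + 1 := by
    rw [← eY, Finset.card_union_of_disjoint dY, cW]; omega
  have cYS : (Y ∩ insert x S).card = (Y₀ ∩ S).card + (W' ∩ S).card + 1 := by
    have : Y ∩ insert x S = insert x (Y₀ ∩ S ∪ W' ∩ S) := by
      ext y
      simp only [hY₀, hW', mem_inter, mem_insert, mem_union, mem_sdiff, mem_erase]
      by_cases hy : y = x
      · subst hy; simp [hxY]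
      · tauto
    rw [this, Finset.card_insert_of_notMem (by simp [hx1.2]), Finset.card_union_of_disjoint]
    apply Finset.disjoint_of_subset_left inter_subset_left
    apply Finset.disjoint_of_subset_right inter_subset_left
    exact Finset.disjoint_of_subset_right (Finset.erase_subset _ _) dY
  have f9 : (if Y ⊆ insert x S then 0 else 1) ≤
      (if Y₀ ⊆ S then 0 else 1) + (if W' = ∅ then 0 else 1) := by
    by_cases h1 : Y₀ ⊆ S
    · by_cases h2 : W' = ∅
      · have : Y ⊆ insert x S := by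
          rw [← eY, ← eW, h2]
          apply Finset.union_subset (h1.trans (Finset.subset_insert _ _))
          simp
        simp [this]
      · simp only [h2, if_false]; split_ifs <;> omega
    · simp only [h1, if_false]; split_ifs <;> omega
  rw [cY, cYS]
  generalize (if Y ⊆ insert x S then 0 else 1) = i1 at *
  generalize (if Y₀ ⊆ S then 0 else 1) = i2 at *
  generalize (if W' = ∅ then 0 else 1) = i3 at *
  rcases hm with ⟨rfl, _⟩ | ⟨rfl, _⟩ <;> nlinarith

theorem exists_absorber {V : Finset W} {m δ : ℕ} {D : Finset W → Finset W → ℕ}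
    (h : Bil V (2 * m - 1) D) (hm : (δ = 0 ∧ m = 3) ∨ (δ = 1 ∧ 5 ≤ m)) :
    ∃ S ⊆ V, Upper V m D S ∧ Lower V m δ D S ∧
      ∀ s ∈ S, ∃ X ⊆ V, s ∈ X ∧ 2 * ((m - 1) * X.card + 4 * (X ∩ S).card) < D X X + 8 := by
  classical
  have h0 : Lower V m δ D ∅ := by
    intro Y hY
    have := h.le hY hY
    obtain ⟨n, rfl⟩ : ∃ n, m = n + 3 := ⟨m - 3, by omega⟩
    simp only [show 2 * (n + 3) - 1 = 2 * n + 5 by omega] at this
    split_ifs with h1
    · simp only [inter_empty, card_empty]; nlinarith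
    · have : 0 < Y.card := Finset.card_pos.2 (Finset.nonempty_iff_ne_empty.2 (by
        rintro rfl; exact h1 (Finset.Subset.refl _)))
      simp only [inter_empty, card_empty]; nlinarith
  obtain ⟨S₀, hS₀, hmax⟩ := ((Finset.powerset V).filter (Lower V m δ D)).exists_max_image
    Finset.card ⟨∅, by simp [h0]⟩
  simp only [mem_filter, mem_powerset] at hS₀ hmax
  have hU₀ : Upper V m D S₀ := by
    by_contra hU
    obtain ⟨x, h1, h2, h3⟩ := greedy_step h hm hS₀.2 hU
    have := hmax (insert x S₀) ⟨Finset.insert_subset h1 hS₀.1, h3⟩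
    rw [Finset.card_insert_of_notMem h2] at this
    omega
  obtain ⟨S, hS, hmin⟩ := ((Finset.powerset V).filter
    (fun S => Upper V m D S ∧ Lower V m δ D S)).exists_min_image
    Finset.card ⟨S₀, by simp [hS₀.1, hS₀.2, hU₀]⟩
  simp only [mem_filter, mem_powerset] at hS hmin
  refine ⟨S, hS.1, hS.2.1, hS.2.2, fun s hs => ?_⟩
  have hc : ∀ Y, s ∈ Y → (Y ∩ S).card = (Y ∩ S.erase s).card + 1 := by
    intro Y hY
    rw [Finset.inter_erase, Finset.card_erase_add_one (by simp [hY, hs])]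
  have hc' : ∀ Y, s ∉ Y → Y ∩ S.erase s = Y ∩ S := by
    intro Y hY
    rw [Finset.inter_erase, Finset.erase_eq_of_notMem (by simp [hY])]
  have hL : Lower V m δ D (S.erase s) := by
    intro Y hY
    have := hS.2.2 Y hY
    by_cases hsY : s ∈ Y
    · rw [hc Y hsY] at this
      have e : (if Y ⊆ S.erase s then 0 else 1) ≤ 1 := by split_ifs <;> omega
      rw [mul_add (2 * (4 + δ))] at this
      omega
    · rw [hc' Y hsY]
      simp only [Finset.subset_erase, hsY, not_false_eq_true, and_true]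
      exact this
  have hU : ¬ Upper V m D (S.erase s) := fun hU => by
    have := hmin _ ⟨(Finset.erase_subset _ _).trans hS.1, hU, hL⟩
    rw [Finset.card_erase_of_mem hs] at this
    have := Finset.card_pos.2 ⟨s, hs⟩
    omega
  unfold Upper at hU
  push Not at hU
  obtain ⟨X, h1, h2⟩ := hU
  by_cases hsX : s ∈ X
  · refine ⟨X, h1, hsX, ?_⟩
    rw [hc X hsX]; omega
  · rw [hc' X hsX] at h2
    exact absurd (hS.2.1 X h1) (by omega)

end Pool.Agent.MP_29e935_co
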