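/-!
The checking machine for mirror labelings (definitions only).
-/

set_option autoImplicit false

namespace Pool.Agent.MP_29e935_co.Six

abbrev PL : Type := List (Nat × Nat × Nat)

/-- Continuations: fuel, program, sum mask, union mask, open paths, key, count, time. -/
abbrev Kont : Type := Nat → Nat → Nat → Nat → PL → Nat → Nat → Nat → Bool

noncomputable def sel (o : Nat) (a : Bool) (b : Nat → Bool) : Bool := Nat.rec a (fun m _ => b m) o

/-- Extend a path ending at `p` by `n` vertices. -/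
noncomputable def walk (B : Nat) (k : Nat → Nat → Nat → Nat → Bool) (n : Nat) :
    Nat → Nat → Nat → Nat → Bool :=
  Nat.rec k (fun _ ih p w S O =>
    (fun q => (fun b => ih q (Nat.div w B) (Nat.add S b) (Nat.lor O b))
      (Nat.add (Nat.shiftLeft 1 q) (Nat.shiftLeft 1 (Nat.add p q)))) (Nat.mod w B)) n

def lane (k w : Nat) : Nat := Nat.shiftLeft (Nat.sub (Nat.shiftLeft 1 w) 1) (Nat.mul 128 k)

def mU : Nat := Nat.lor (Nat.lor (lane 8 64) (lane 10 64)) (Nat.lor (lane 12 64) (lane 14 64))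
def mZ : Nat := lane 9 64
def mT : Nat := lane 22 128
def mS : Nat := Nat.lor (Nat.lor (lane 17 128) (lane 19 128)) (Nat.lor (lane 21 128) (lane 23 128))
def mI : Nat := Nat.xor (lane 0 4096) (Nat.lor (Nat.lor mU mZ) (Nat.lor mT mS))

/-- The mask seen from the frame `k` steps later. -/
def ret (k O : Nat) : Nat :=
  Nat.lor (Nat.lor mI (Nat.lor (Nat.land (Nat.shiftRight (Nat.land O mU) k) mU)
    (Nat.land (Nat.shiftRight (Nat.land O mT) (Nat.mul 2 k)) mT)))
    (Nat.lor (Nat.land (Nat.shiftLeft (Nat.land O mZ) (Nat.mul 2 k)) mZ)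
      (Nat.land (Nat.shiftLeft (Nat.land O mS) k) mS))

def rc (k y : Nat) : Nat := cond (Nat.beq (Nat.div y 128) 9) (Nat.add y (Nat.mul 2 k)) (Nat.sub y k)

def rcOK (k y : Nat) : Bool :=
  cond (Nat.beq (Nat.div y 128) 9) (Nat.ble (Nat.add (Nat.mod y 128) (Nat.mul 2 k)) 63)
    (Nat.ble k (Nat.mod y 128))

def subm (a b : Nat) : Bool := Nat.beq (Nat.lor a b) b

noncomputable def opCyc (B : Nat) (k : Nat → Nat → Nat → Nat → Nat → Bool) (n w S O cv e : Nat) :
    Bool :=
  (fun p => (fun b => walk B (fun q w S O =>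
    (fun b => k w (Nat.add S b) (Nat.lor O b)
      (Nat.add cv (Nat.shiftLeft 1 (Nat.mul 12 (Nat.succ n)))) (Nat.add e (Nat.succ n)))
      (Nat.shiftLeft 1 (Nat.add q p))) n p (Nat.div w B) (Nat.add S b) (Nat.lor O b))
    (Nat.shiftLeft 1 p)) (Nat.mod w B)

noncomputable def opOpen (B : Nat) (k : Nat → Nat → Nat → PL → Nat → Bool) (n w S O : Nat) (L : PL)
    (e : Nat) : Bool :=
  (fun p => (fun b => walk B (fun q w S O => k w S O ((p, q, Nat.mul 2 n) :: L) (Nat.add e n))
    n p (Nat.div w B) (Nat.add S b) (Nat.lor O b)) (Nat.shiftLeft 1 p)) (Nat.mod w B)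

noncomputable def opExt (B : Nat) (k : Nat → Nat → Nat → PL → Nat → Bool) (n w S O : Nat) (L : PL)
    (e : Nat) : Bool :=
  match L with
  | P :: L => walk B (fun q w S O => k w S O ((P.1, q, Nat.add P.2.2 (Nat.mul 2 n)) :: L)
      (Nat.add e n)) n P.2.1 w S O
  | [] => false

def opClose (k : Nat → Nat → PL → Nat → Bool) (S O : Nat) (L : PL) (cv : Nat) : Bool :=
  match L with
  | P :: L => (fun b => k (Nat.add S b) (Nat.lor O b) L
      (Nat.add cv (Nat.shiftLeft 1 (Nat.mul 6 (Nat.add P.2.2 2)))))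
      (Nat.shiftLeft 1 (Nat.add P.2.1 P.1))
  | [] => false

def opJoin (k : Nat → Nat → PL → Bool) (S O : Nat) (L : PL) : Bool :=
  match L with
  | P :: R :: L => Nat.ble (Nat.add (Nat.mod P.2.2 2) (Nat.mod R.2.2 2)) 1 &&
      (fun b => k (Nat.add S b) (Nat.lor O b) ((P.1, R.2.1, Nat.add (Nat.add P.2.2 R.2.2) 2) :: L))
      (Nat.shiftLeft 1 (Nat.add P.2.1 R.1))
  | _ => false

def opRev (k : PL → Bool) (L : PL) : Bool :=
  match L with
  | P :: L => k ((P.2.1, P.1, P.2.2) :: L)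
  | [] => false

def opSwap (k : PL → Bool) (L : PL) : Bool :=
  match L with
  | P :: R :: L => k (R :: P :: L)
  | _ => false

def opRot (k : PL → Bool) (L : PL) : Bool :=
  match L with
  | P :: L => k (L ++ [P])
  | [] => false

def opShift (k : Nat → PL → Bool) (n S O : Nat) (L : PL) (e : Nat) : Bool :=
  Nat.beq S O && Nat.ble (Nat.mul 6 n) e && L.all (fun P => rcOK n P.1 && rcOK n P.2.1) &&
    k (ret n O) (L.map fun P => (rc n P.1, rc n P.2.1, P.2.2))

noncomputable def run (B : Nat) (bm : Bool) (k : Kont) (f : Nat) :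
    Nat → Nat → Nat → PL → Nat → Nat → Nat → Bool :=
  Nat.rec (fun _ _ _ _ _ _ _ => false) (fun f ih w S O L cv e u =>
    (fun d => (fun n w => sel (Nat.mod d 16) (k f w S O L cv e u) fun o =>
      sel o (opCyc B (fun w S O cv e => ih w S O L cv e u) n w S O cv e) fun o =>
      sel o (opOpen B (fun w S O L e => ih w S O L cv e u) n w S O L e) fun o =>
      sel o (opExt B (fun w S O L e => ih w S O L cv e u) n w S O L e) fun o =>
      sel o (opClose (fun S O L cv => ih w S O L cv (Nat.succ e) u) S O L cv) fun o =>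
      sel o (opJoin (fun S O L => ih w S O L cv (Nat.succ e) u) S O L) fun o =>
      sel o (opRev (fun L => ih w S O L cv e u) L) fun o =>
      sel o (opSwap (fun L => ih w S O L cv e u) L) fun o =>
      sel o (opRot (fun L => ih w S O L cv e u) L) fun _ =>
      bm && opShift (fun O L => ih w O O L cv (Nat.sub e (Nat.mul 6 n)) (Nat.add u n)) n S O L e)
      (Nat.div d 16) (Nat.div w B)) (Nat.mod w B)) f

def dnL (k w i : Nat) : Nat :=
  Nat.shiftLeft (Nat.sub (Nat.shiftLeft 1 (Nat.sub w i)) 1) (Nat.add (Nat.mul 128 k) i)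

/-- The mask of a state without holes, with frontier `i`. -/
def flat (i : Nat → Nat) : Nat :=
  Nat.lor (Nat.lor (Nat.lor mI (Nat.lor (lane 8 (i 8)) (lane 10 (i 10))))
    (Nat.lor (Nat.lor (lane 12 (i 12)) (lane 14 (i 14))) (Nat.lor (lane 22 (i 22)) (dnL 9 64 (i 9)))))
    (Nat.lor (Nat.lor (dnL 17 128 (i 17)) (dnL 19 128 (i 19)))
      (Nat.lor (dnL 21 128 (i 21)) (dnL 23 128 (i 23))))

def dg (g i : Nat) : Nat := Nat.mod (Nat.shiftRight g (Nat.mul 10 i)) 1024

/-- A state packs the ends of its open path, a counter and a mask. -/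
def sH (a : Nat) : Nat := Nat.mod a 4096
def sT (a : Nat) : Nat := Nat.mod (Nat.shiftRight a 12) 4096
def sE (a : Nat) : Nat := Nat.mod (Nat.shiftRight a 24) 4096
def sM (a : Nat) : Nat := Nat.shiftRight a 36

def pth (a l : Nat) : PL := cond (Nat.beq (sH a) 0) [] [(sH a, sT a, l)]

def isP (a l : Nat) (L : PL) : Bool :=
  match L with
  | [] => Nat.beq (sH a) 0
  | P :: L => !Nat.beq P.1 0 && Nat.beq P.1 (sH a) && Nat.beq P.2.1 (sT a) && Nat.beq P.2.2 l &&
      L.isEmpty

/-- A segment from the state `a` to the state `b`. -/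
noncomputable def segOK (a b key sy w : Nat) : Bool :=
  run 2048 true (fun _ _ S O L cv e _ => Nat.beq S O && subm O (sM b) && isP b sy L &&
    Nat.beq cv key && Nat.beq (Nat.add e (sE a)) (Nat.add 600 (sE b)))
    63 w (sM a) (sM a) (pth a 1) 0 600 0

def isUp (k : Nat) : Bool := cond (Nat.ble k 15) (!Nat.beq k 9) (Nat.beq k 22)

def rt (k : Nat) : Nat := cond (Nat.beq k 9 || Nat.beq k 22) 2 1

def w0 (g k : Nat) : Nat := dg g (Nat.add 8 k)
def jS (g k : Nat) : Nat := dg g (Nat.add 24 k)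
def i0 (g k : Nat) : Nat := dg g (Nat.add 40 k)
def jE (g k : Nat) : Nat := cond (isUp k) (Nat.add (jS g k) (rt k)) (Nat.sub (jS g k) (rt k))
def jL (g k : Nat) : Nat := cond (isUp k) (jS g k) (Nat.sub (jS g k) (rt k))

def cK (g j k : Nat) : Nat := Nat.add j (cond (Nat.ble k 15) 9 (Nat.add 18 (dg g 2)))

/-- The code in the final picture of the track code `y`, seen from cluster `j`. -/
def cX (g j y : Nat) : Nat :=
  Nat.sub (Nat.add (Nat.add (Nat.mul 2048 (cK g j (Nat.div y 128))) (w0 g (Nat.div y 128)))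
    (Nat.add (Nat.mul (dg g 1) (Nat.mod y 128))
      (cond (Nat.ble (Nat.div y 128) 15) 0 (Nat.add (dg g 0) 480))))
    (Nat.mul (dg g 1) (i0 g (Nat.div y 128)))

def cOK (g j y : Nat) : Bool := Nat.beq (Nat.div (cX g j y) 2048) (cK g j (Nat.div y 128))

noncomputable def convL (g : Nat) (k : Nat → Nat → Nat → Bool) (r : Nat) :
    Nat → Nat → Nat → Nat → Bool :=
  Nat.rec (fun _ => k) (fun _ ih w X S O => (fun y => (fun j => cOK g j y &&
    (fun b => ih (Nat.div w 4096) (Nat.xor X (Nat.shiftLeft 1 y)) (Nat.add S b) (Nat.lor O b))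
      (Nat.shiftLeft 1 (cX g j y))) (jE g (Nat.div y 128))) (Nat.mod w 4096)) r

noncomputable def convE (g : Nat) (k : Nat → Nat → Nat → Nat → Bool) (r : Nat) :
    Nat → Nat → Nat → Nat → Bool :=
  Nat.rec k (fun _ ih w X S O => (fun y => (fun j => cOK g j y &&
    (fun b => ih (Nat.div w 4096) (Nat.xor X (Nat.shiftLeft 1 (cX g j y))) (Nat.add S b) (Nat.lor O b))
      (Nat.shiftLeft 1 y)) (jS g (Nat.div y 128))) (Nat.mod w 4096)) r

def nb (m x : Nat) : Bool := Nat.beq (Nat.land (Nat.shiftRight m x) 1) 0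

def okE (g y x : Nat) : Bool :=
  cOK g (jS g (Nat.div y 128)) y && Nat.beq (cX g (jS g (Nat.div y 128)) y) x && !nb (Nat.lor mU mZ) y

def convP (g : Nat) : PL → (PL → Nat → Bool) → Nat → Bool
  | [], k, w => k [] w
  | P :: L, k, w => okE g (Nat.mod w 4096) P.1 && okE g (Nat.mod (Nat.div w 4096) 4096) P.2.1 &&
      convP g L (fun L => k ((Nat.mod w 4096, Nat.mod (Nat.div w 4096) 4096, P.2.2) :: L))
        (Nat.div w 16777216)

/-- The codes of the final picture that are not in use. -/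
def mW : Nat :=
  Nat.lor (Nat.lor (Nat.lor (lane 0 18432) (lane 152 1024)) (Nat.lor (lane 168 1024) (lane 184 1024)))
    (Nat.lor (Nat.lor (lane 200 1024) (lane 216 1024)) (Nat.lor (lane 232 1024) (lane 248 1024)))

/-- Through the clusters to the start of the tracks and on to the state `a`. -/
noncomputable def wrpOK (g V F a n b key w : Nat) : Bool :=
  run 32768 false (fun f w S O L cv e _ => Nat.beq S O &&
    convE g (fun w Y S O => subm Y V && convP g L (fun L w =>
      run 2048 true (fun _ _ S O L cv e _ => Nat.beq S O && subm O (sM a) &&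
        isP a (Nat.mul 2 b) L && Nat.beq cv key &&
        Nat.beq (Nat.add e n) (Nat.add (Nat.add (sE a) 600) (dg g 3)))
        f w S O L cv e 0) w) (Nat.mod w 4096) (Nat.div w 4096) O F F) 63 w mW mW [] 0 600 0

noncomputable def allLt (p : Nat → Bool) (n : Nat) : Bool := Nat.rec true (fun i ih => p i && ih) n

def ix (g o w j : Nat) : Nat :=
  Nat.add (Nat.add o (Nat.mul (Nat.mod w (dg g 1)) (Nat.add (Nat.mul 2 (dg g 2)) 2))) j

def ptOK (g o j w : Nat) : Bool :=
  Nat.ble j (Nat.mul 2 (dg g 2)) && Nat.ble (dg g (ix g o w j)) w &&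
    Nat.ble (Nat.succ w) (dg g (ix g o w (Nat.succ j)))

def pmOK (g o j w : Nat) : Bool := ptOK g o (Nat.sub (Nat.mul 2 (dg g 2)) j) (Nat.sub 1023 w)

/-- The mirror image of the code `x` is not in `V`. -/
def mirOK (g V x : Nat) : Bool :=
  nb V (Nat.sub (cond (Nat.ble x 32767)
    (Nat.add (Nat.add 56799 (Nat.mul 6144 (dg g 2))) (dg g 0))
    (Nat.add (Nat.add 75711 (Nat.mul 8192 (dg g 2))) (Nat.mul 2 (dg g 0)))) x)

/-- The code `x` lies in its cluster in both pictures. -/
def bitOK (g V x : Nat) : Bool :=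
  mirOK g V x && cond (Nat.ble x 32767)
    (Nat.ble 18432 x && ptOK g 64 (Nat.sub (Nat.div x 2048) 9) (Nat.mod x 2048))
    (Nat.ble (Nat.add 18 (dg g 2)) (Nat.div x 2048) &&
      Nat.ble (Nat.add (dg g 0) 480) (Nat.mod x 2048) &&
      (fun j w => ptOK g 100 j w && pmOK g 100 j w && pmOK g 64 j w)
        (Nat.sub (Nat.div x 2048) (Nat.add 18 (dg g 2)))
        (Nat.sub (Nat.mod x 2048) (Nat.add (dg g 0) 480)))

/-- The test `p` holds on a list of codes containing all bits of the mask. -/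
noncomputable def bits (p : Nat → Bool) (r : Nat) : Nat → Nat → Bool :=
  Nat.rec (fun _ m => Nat.beq m 0) (fun _ ih w m => Bool.rec false
    (ih (Nat.div w 65536) (Nat.xor m (Nat.shiftLeft 1 (Nat.mod w 65536)))) (p (Nat.mod w 65536))) r

def slOK (g i t w : Nat) : Bool := Nat.beq (dg g i) w && Nat.beq (dg g (Nat.add 72 i)) t

def znOK (g o t w j r : Nat) : Bool :=
  Nat.ble (Nat.add j r) (Nat.mul 2 (dg g 2)) && slOK g (ix g o w (Nat.succ j)) t w &&
    slOK g (ix g o w (Nat.add j r)) t w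

def zmOK (g o t k : Nat) : Bool :=
  znOK g o t (Nat.sub (Nat.add 1023 (dg g 1)) (w0 g k))
    (Nat.sub (Nat.mul 2 (dg g 2)) (Nat.add (jL g k) (rt k))) (rt k)

def trOK (g k : Nat) : Bool :=
  (isUp k || Nat.ble (rt k) (jS g k)) && Nat.ble (i0 g k) (cond (Nat.ble k 15) 64 128) &&
    cond (Nat.ble k 15) (znOK g 64 k (w0 g k) (jL g k) (rt k))
      (znOK g 100 k (w0 g k) (jL g k) (rt k) && zmOK g 100 (Nat.add 32 k) k && zmOK g 64 k k)

noncomputable def chOK (g o lo hi : Nat) : Bool :=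
  allLt (fun r => Nat.ble lo (Nat.add (dg g (ix g o r 0)) (dg g 3)) &&
    (fun t => Nat.ble (Nat.add t hi) (Nat.add (Nat.add 527 (dg g 3)) (dg g 1)) &&
      Nat.beq (Nat.mod t (dg g 1)) r) (dg g (ix g o r (Nat.succ (Nat.mul 2 (dg g 2))))) &&
    allLt (fun j => Nat.ble (dg g (ix g o r j)) (dg g (ix g o r (Nat.succ j))))
      (Nat.succ (Nat.mul 2 (dg g 2)))) (dg g 1)

def adOK (g p q x : Nat) : Bool :=
  Nat.beq (Nat.add (Nat.add (w0 g p) (w0 g q)) (Nat.mul (dg g 1) (i0 g x)))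
    (Nat.add (Nat.add (w0 g x) (Nat.add (dg g 0) 480))
      (Nat.mul (dg g 1) (Nat.add (i0 g p) (i0 g q)))) &&
    Nat.beq (Nat.add (jS g p) (jS g q)) (Nat.add (jS g x) (dg g 2))

noncomputable def geoOK (g : Nat) : Bool :=
  Nat.beq (Nat.mul (dg g 1) (dg g 2)) 6 && Nat.ble (dg g 2) 3 &&
  (trOK g 8 && trOK g 10 && trOK g 12 && trOK g 14 && trOK g 9 && trOK g 22 && trOK g 17 &&
    trOK g 19 && trOK g 21 && trOK g 23) &&
  (adOK g 8 14 22 && adOK g 10 12 22 && adOK g 8 9 17 && adOK g 10 9 19 && adOK g 12 9 21 &&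
    adOK g 14 9 23) &&
  (Nat.ble (dg g 4) 528 && chOK g 64 (Nat.sub 528 (dg g 4)) (dg g 4) && chOK g 100 512 16)

/-- The late lines of the state `a` join the clusters, and the whole picture is checked. -/
noncomputable def endOK (g V F a r v w : Nat) : Bool :=
  Nat.beq (sH a) 0 && convL g (fun Y S O => Nat.beq S O && subm Y F && bits (bitOK g O) r v O)
    (Nat.mod w 4096) (Nat.div w 4096) (sM a) V V

def inR (a m b : Nat) : Bool := Nat.ble a m && Nat.ble (Nat.succ m) b

/-- Codes of a complete labeling. -/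
def dirBit (g V x : Nat) : Bool :=
  mirOK g V x && (fun n => cond (Nat.ble x 32767)
    (inR 18960 (Nat.add (Nat.add x n) (dg g 4)) (Nat.add 18960 (Nat.mul 2 n)))
    ((fun a => inR a (Nat.add x n) (Nat.add a (Nat.mul 2 n)) &&
      inR (Nat.add a (dg g 4)) (Nat.add (Nat.add x n) 16) (Nat.add (Nat.add a (dg g 4)) (Nat.mul 2 n)))
      (Nat.add 37856 (dg g 0)))) (dg g 3)

noncomputable def dirE (g key w : Nat) : Bool :=
  Nat.beq (dg g 2) 0 && Nat.ble (dg g 0) 64 && Nat.ble (dg g 3) 400 && Nat.ble (dg g 4) 32 &&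
  run 32768 false (fun _ w S O L cv e _ => Nat.beq S O && L.isEmpty && Nat.beq cv key &&
    Nat.beq (Nat.add 600 (dg g 3)) e &&
    bits (dirBit g (Nat.xor O mW)) (Nat.mul 2 (dg g 3)) w (Nat.xor O mW))
    63 w mW mW [] 0 600 0

end Pool.Agent.MP_29e935_co.Six
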