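import Pool.Agent.MP_29e935_co.SixDef

/-!
Checks of whole tables (definitions only).
-/

set_option autoImplicit false

namespace Pool.Agent.MP_29e935_co.Six

def wW : Nat := Nat.shiftLeft 1 640

def ky (q : Nat) : Nat := Nat.shiftRight q 30

noncomputable def frc {α : Type} (n : Nat) (k : Nat → α) : α :=
  Nat.rec (k 0) (fun m _ => k (Nat.succ m)) n

noncomputable def segC (A : Nat → Nat) (l : List Nat) : Nat → Bool :=
  List.rec (fun C => Nat.beq C 0) (fun w _ ih C => Bool.rec false (ih (Nat.shiftRight C 640))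
    ((fun q => segOK (A (dg q 0)) (A (dg q 1)) (ky q) (dg q 2) w) (Nat.mod C wW))) l

noncomputable def wrps (A : Nat → Nat) (g V F : Nat) (k : Nat → Bool) (l : List Nat) : Nat → Bool :=
  List.rec k (fun w _ ih C => Bool.rec false (ih (Nat.shiftRight C 640))
    ((fun q => Nat.ble 1 (dg q 2) && wrpOK g V F (A (dg q 0)) (sE (A 0)) (dg q 1) (ky q) w)
      (Nat.mod C wW))) l

noncomputable def bld (r : Nat) : Nat → Nat → Nat :=
  Nat.rec (fun _ a => a) (fun _ ih w a =>
    ih (Nat.div w 65536) (Nat.lor a (Nat.shiftLeft 1 (Nat.mod w 65536)))) r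

noncomputable def wrpC (A : Nat → Nat) (l : List (Nat × Nat × Nat × List Nat)) : Nat → Bool :=
  List.rec (fun C => Nat.beq C 0) (fun G _ ih C => geoOK G.1 &&
    frc (bld (dg G.2.1 0) (Nat.shiftRight G.2.1 20) 0) fun V => frc (flat (i0 G.1)) fun F =>
      endOK G.1 V F (A 0) (dg G.2.1 1) (Nat.shiftRight G.2.1 20) G.2.2.1 && frc (Nat.lor V mW) fun V => wrps A G.1 V F ih G.2.2.2 C) l

def excK (k : Nat) : Bool :=
  Nat.beq k 0 || Nat.beq k (Nat.shiftLeft 1 60) || Nat.beq k (Nat.shiftLeft 1 72) ||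
    Nat.beq k (Nat.add (Nat.shiftLeft 1 36) (Nat.shiftLeft 1 60))

noncomputable def dirC (l : List Nat) : Nat → Bool :=
  List.rec (fun C => Nat.beq C 0) (fun w _ ih C => Bool.rec false (ih (Nat.shiftRight C 640))
    ((fun q => Nat.beq (dg q 2) 0 && (excK (ky q) || dirE w (ky q) (Nat.shiftRight w 50)))
      (Nat.mod C wW))) l

/-- Entry `i` of a table given in chunks of `64` entries. -/
noncomputable def look (T : Nat → Nat) (i : Nat) : Nat :=
  Nat.mod (Nat.shiftRight (frc (Nat.div i 64) T) (Nat.mul 640 (Nat.mod i 64))) wW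

def hI : Nat := Nat.mul 32 (Nat.div (Nat.sub (Nat.shiftLeft 1 642) 1) 63)

def sml (k : Nat) : Bool := Nat.beq (Nat.land k hI) 0

/-- The digits of the two keys can be added. -/
def sm2 (a b : Nat) : Bool :=
  sml (Nat.lor a b) ||
    (sml (Nat.lor a (Nat.shiftLeft a 1)) && sml (Nat.land b (Nat.shiftLeft b 1)))

def four (g : Nat) : Bool :=
  Nat.beq (Nat.mod g 281474976710656) 0 && Nat.ble g 18014398509481983

def isB (u : Nat) : Bool := Nat.beq (Nat.mod u 1048576) 0

def md (b b' g : Nat) : Bool :=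
  cond (Nat.beq b' 1) true (cond (Nat.beq b' 0) (Nat.beq (Nat.add b g) 0) (!Nat.beq b 1 && four g))

/-- Adding the item of rank `r` to the key leads, after removal of a block, to a state of `T`. -/
noncomputable def trn (T U : Nat → Nat) (I key b r d : Nat) : Bool :=
  (fun s u => Bool.rec false (Bool.rec false (Bool.rec false (Bool.rec false
    (md b (dg s 2) (ky u)) (Nat.ble (Nat.succ r) (dg s 0))) (isB u)) (sm2 (ky u) (ky s)))
    (Nat.beq (Nat.add key (Nat.mod (Nat.shiftRight I (Nat.mul 640 r)) wW)) (Nat.add (ky u) (ky s))))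
    (look T (Nat.mod d 65536)) (Nat.rec 0 (fun i _ => look U (Nat.succ i)) (Nat.div d 65536))

noncomputable def trns (T U : Nat → Nat) (I key b m n : Nat) : Nat → Bool :=
  Nat.rec (fun _ => true) (fun r ih w => Bool.rec false (ih (Nat.div w 4294967296))
    (trn T U I key b (Nat.add m r) (Nat.mod w 4294967296))) n

def fl (e a : Nat) : Nat :=
  Nat.add (Nat.shiftLeft e 36) (Nat.shiftLeft 1 (Nat.mul 6 (Nat.succ (Nat.mul 2 a))))

/-- A block, an opening entry and a closing segment. -/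
def tri (u v c : Nat) : Bool :=
  isB u && Nat.ble 1 (dg v 2) && Nat.beq (dg v 0) 1 && Nat.beq (Nat.mod c 1048576) 1 &&
    (sml (Nat.lor (ky u) (ky v)) && sm2 (ky c) (Nat.add (ky u) (ky v)))

def hw (d i : Nat) : Nat := Nat.mod (Nat.shiftRight d (Nat.mul 16 i)) 65536

noncomputable def finOK (U W : Nat → Nat) (key b d : Nat) : Bool :=
  cond (!Nat.beq b 1 && four key) true ((fun u v => cond (Nat.beq (hw d 2) 0)
    (isB u && sm2 (ky u) (ky v) && Nat.beq key (Nat.add (ky u) (ky v)) &&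
      cond (Nat.beq (dg v 2) 0) (Nat.beq (Nat.add b (ky u)) 0) (Nat.beq (dg v 0) 0))
    ((fun c a l => tri u v c && Nat.beq (Nat.add key (fl 0 a))
      (Nat.add (Nat.add (Nat.add (ky u) (ky v)) (ky c)) (Nat.shiftLeft 1 (Nat.mul 6 (Nat.mul 2 l)))) &&
      Nat.ble (Nat.add a (dg v 1)) l && Nat.beq (Nat.mod (Nat.add a (dg v 1)) 6) (Nat.mod l 6))
      (look U (hw d 2)) (hw d 3) (hw d 4))) (look U (hw d 0)) (look W (hw d 1)))

/-- The certificate for a rest of long cycles in the case `j`. -/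
noncomputable def chn (U W : Nat → Nat) (key lam j d : Nat) : Bool :=
  (fun u v c a => tri u v c &&
    Nat.beq (Nat.add key (fl (Nat.div j 6) a)) (Nat.add (Nat.add (ky u) (ky v)) (ky c)) &&
    Nat.beq (Nat.mod (Nat.add (Nat.add a (dg v 1)) (Nat.mul 3 (Nat.div j 6))) 6) (Nat.mod j 6) &&
    Nat.ble (Nat.add a (dg v 1)) (Nat.add lam 5) && Nat.ble (Nat.add a 7) lam &&
    (Nat.ble (Nat.add (dg v 1) 7) lam ||
      (Nat.beq (Nat.mod (dg v 1) 2) 0 && Nat.ble (Nat.add (dg v 1) 6) lam)))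
    (look U (hw d 0)) (look W (hw d 1)) (look U (hw d 2)) (hw d 3)

noncomputable def covC (T U W : Nat → Nat) (I J n : Nat) (l : List Nat) : Nat → Bool :=
  List.rec (fun C => Nat.beq C 0) (fun w _ ih C => Bool.rec false (ih (Nat.shiftRight C 640))
    ((fun s => finOK U W (ky s) (dg s 2) w && Nat.ble 1 (dg s 1) &&
      Nat.ble (dg s 1) n &&
      allLt (fun j => chn U W (ky s) (dg J (dg s 1)) j
        (Nat.shiftRight w (Nat.add 80 (Nat.mul 64 j)))) 12 &&
      trns T U I (ky s) (dg s 2) (dg s 1) (Nat.sub (dg s 0) (dg s 1)) (Nat.shiftRight w 848))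
      (Nat.mod C wW))) l

/-- The pump and the twelve switches. -/
noncomputable def swOK (U : Nat → Nat) (w : Nat) : Bool :=
  Nat.beq (look U (Nat.mod w 65536)) 13632513 && allLt (fun j => (fun u a =>
    Nat.beq (Nat.mod u 1048576) 1025 && Nat.beq (ky u) (fl (Nat.div j 6) a) &&
    Nat.beq (Nat.mod (dg u 2) 2) 0 && Nat.ble (dg u 2) 24 && Nat.beq (Nat.mod a 6) (Nat.mod j 6) &&
    Nat.beq (Nat.mod (Nat.add (Nat.add a (Nat.div (dg u 2) 2)) (Nat.mul 3 (Nat.div j 6))) 6) 0 &&
    Nat.ble a (Nat.add 11 (Nat.div j 6)))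
    (look U (Nat.mod (Nat.shiftRight w (Nat.add 16 (Nat.mul 32 j))) 65536))
    (Nat.mod (Nat.shiftRight w (Nat.add 32 (Nat.mul 32 j))) 65536)) 12

end Pool.Agent.MP_29e935_co.Six
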